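import Pool.Agent.Y743.CL.Fa
import Pool.Agent.W54.TCF.NT

/-! # The normal law for sums of unfolded gaps: from dyadic blocks to all zeros -/

set_option autoImplicit false

open Filter Topology MeasureTheory Set

namespace Pool.Agent.R320.CL

open SG (ord NZ)
open Pool.Agent.Y743.CL

/-- unfolded gap -/
noncomputable def dl (n : ℕ) : ℝ :=
  (ord (n + 1) - ord n) / (2 * Real.pi) * Real.log (ord n / (2 * Real.pi))

/-- sum of `r` consecutive unfolded gaps -/
noncomputable def SS (r n : ℕ) : ℝ := ∑ i ∈ Finset.range r, dl (n + i)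

lemma SS_ge {r n : ℕ} (hn : 1 ≤ n) :
    (ord (n + r) - ord n) / (2 * Real.pi) * Real.log (ord n / (2 * Real.pi)) ≤ SS r n := by
  have hpi := Real.pi_pos
  have hp0 : 0 < ord n := SG.ord_pos hn
  have h4 : ∀ i : ℕ, (ord (n + (i + 1)) - ord (n + i)) / (2 * Real.pi) *
      Real.log (ord n / (2 * Real.pi)) ≤ dl (n + i) := by
    intro i
    show _ ≤ (ord (n + i + 1) - ord (n + i)) / (2 * Real.pi) *
      Real.log (ord (n + i) / (2 * Real.pi))
    rw [show n + (i + 1) = n + i + 1 by ring]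
    apply mul_le_mul_of_nonneg_left
    · apply Real.log_le_log (by positivity)
      apply div_le_div_of_nonneg_right _ (by positivity)
      exact SG.ord_mono hn (by omega)
    · apply div_nonneg _ (by positivity)
      have := SG.ord_mono (show 1 ≤ n + i by omega) (show n + i ≤ n + i + 1 by omega)
      linarith
  calc (ord (n + r) - ord n) / (2 * Real.pi) * Real.log (ord n / (2 * Real.pi))
      = ∑ i ∈ Finset.range r, (ord (n + (i + 1)) - ord (n + i)) / (2 * Real.pi) *
        Real.log (ord n / (2 * Real.pi)) := by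
        rw [← Finset.sum_mul, ← Finset.sum_div,
          Finset.sum_range_sub (fun i => ord (n + i)) r, add_zero]
    _ ≤ SS r n := Finset.sum_le_sum fun i _ => h4 i

lemma dl_le {n : ℕ} (hn : 1 ≤ n) : dl n ≤ ord (n + 1) * Real.log (ord (n + 1)) / (2 * Real.pi) -
    ord n * Real.log (ord n) / (2 * Real.pi) := by
  have hpi := Real.pi_gt_three
  have hp0 : 0 < ord n := SG.ord_pos hn
  have huv : ord n ≤ ord (n + 1) := SG.ord_mono hn (by omega)
  have h1 := unf_lo hp0 huv
  have h2 : Real.log (ord n / (2 * Real.pi)) ≤ Real.log (ord (n + 1)) := by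
    apply Real.log_le_log (by positivity)
    refine le_trans ?_ huv
    rw [div_le_iff₀ (by positivity)]
    nlinarith
  unfold dl
  rw [← sub_div, div_mul_eq_mul_div]
  apply div_le_div_of_nonneg_right _ (by positivity)
  refine le_trans ?_ h1
  exact mul_le_mul_of_nonneg_left h2 (by linarith)

lemma SS_le {r n : ℕ} (hn : 1 ≤ n) : SS r n ≤
    ord (n + r) * Real.log (ord (n + r)) / (2 * Real.pi) -
    ord n * Real.log (ord n) / (2 * Real.pi) := by
  calc SS r n ≤ ∑ i ∈ Finset.range r,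
      (ord (n + (i + 1)) * Real.log (ord (n + (i + 1))) / (2 * Real.pi) -
        ord (n + i) * Real.log (ord (n + i)) / (2 * Real.pi)) :=
        Finset.sum_le_sum fun i _ => dl_le (by omega)
    _ = _ := by
        rw [Finset.sum_range_sub (fun i => ord (n + i) * Real.log (ord (n + i)) /
          (2 * Real.pi)) r, add_zero]

/-- the event -/
def Ss (x : ℝ) (r n : ℕ) : Prop := SS r n ≤ r + x * lm r

noncomputable instance (x : ℝ) (r : ℕ) : DecidablePred (Ss x r) := fun _ => Classical.dec _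

lemma lm_top : Tendsto lm atTop atTop := by
  unfold lm
  exact (Real.tendsto_sqrt_atTop.comp log_nat).atTop_div_const Real.pi_pos

theorem uU (x ε : ℝ) (hε : 0 < ε) : ∀ᶠ r : ℕ in atTop, ∀ T : ℝ, 1 ≤ T →
    r * Real.log r ≤ 2 * Real.log T →
    (((Finset.Ioc (NZ T) (NZ (2 * T))).filter (fun n => Ss x r n)).card : ℝ) ≤
      T * Real.log T / (2 * Real.pi) * (Ph x + ε) := by
  have hpi := Real.pi_pos
  filter_upwards [blockU 2 (by norm_num) (x + ε / 2) (ε / 2) (by positivity),
    bigT 2 (by norm_num) 10, (as6 x 0).eventually_ge_atTop 0, as7,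
    (as1 x 0).eventually_le_const (show (0 : ℝ) < 1 by norm_num),
    lm_top.eventually_ge_atTop (4 / ε)] with r h1 h2 h3 h4 h5 h6 T hT hrT
  have hT10 := h2 T hT hrT
  have hr0 : (0 : ℝ) < r := by
    rcases Nat.eq_zero_or_pos r with h | h
    · rw [h] at h4; simp at h4; linarith
    · exact_mod_cast h
  rw [add_zero] at h3 h5
  rw [div_le_iff₀ hr0, one_mul] at h5
  obtain ⟨L, hL⟩ : ∃ L : ℝ, L = Real.log T := ⟨_, rfl⟩
  have hlr : 0 < Real.log r := by linarith
  have hL4 : 4 ≤ L := by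
    rw [← hL] at hrT
    have h7 : (1 : ℝ) ≤ r := by
      have : (0 : ℕ) < r := by exact_mod_cast hr0
      exact_mod_cast this
    nlinarith
  have hL0 : 0 < L := by linarith
  have hPh : Ph (x + ε / 2) ≤ Ph x + ε / 2 := by
    have := Ph_lip (show x ≤ x + ε / 2 by linarith)
    linarith
  have hX : 0 ≤ T * Real.log T / (2 * Real.pi) := by
    rw [← hL]; positivity
  refine le_trans ?_ ((h1 T hT hrT).trans (mul_le_mul_of_nonneg_left (by linarith) hX))
  have hsub : (Finset.Ioc (NZ T) (NZ (2 * T))).filter (fun n => Ss x r n) ⊆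
      (Finset.Ioc (NZ T) (NZ (2 * T))).filter
      (fun n => ord (n + r) ≤ ord n + (r + (x + ε / 2) * lm r) * (2 * Real.pi / Real.log T)) := by
    intro n hn
    rw [Finset.mem_filter] at hn ⊢
    refine ⟨hn.1, ?_⟩
    obtain ⟨hn1, hn2⟩ := hn
    rw [Finset.mem_Ioc] at hn1
    have hn0 : 1 ≤ n := by omega
    have hu : T < ord n := by
      by_contra hcon
      push Not at hcon
      have := (SG.ord_le_iff hn0 _).mp hcon
      omega
    have huv : ord n ≤ ord (n + r) := SG.ord_mono hn0 (by omega)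
    obtain ⟨g, hg⟩ : ∃ g : ℝ, g = (ord (n + r) - ord n) / (2 * Real.pi) := ⟨_, rfl⟩
    have hg0 : 0 ≤ g := by rw [hg]; exact div_nonneg (by linarith) (by positivity)
    have h8 : Real.log (ord n / (2 * Real.pi)) ≥ L - 2 := by
      rw [Real.log_div (by linarith) (by positivity), hL]
      have a1 : Real.log T ≤ Real.log (ord n) := Real.log_le_log (by linarith) hu.le
      have a2 : Real.log (2 * Real.pi) ≤ 2 := by
        rw [Real.log_le_iff_le_exp (by positivity)]
        have e1 : Real.exp 2 = Real.exp 1 * Real.exp 1 := by rw [← Real.exp_add]; norm_num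
        rw [e1]
        have := Real.exp_one_gt_d9
        have := Real.pi_lt_d2
        nlinarith
      linarith
    have h9 : g * (L - 2) ≤ r + x * lm r := by
      have a1 := SS_ge (r := r) hn0
      rw [← hg] at a1
      have a2 : g * (L - 2) ≤ g * Real.log (ord n / (2 * Real.pi)) :=
        mul_le_mul_of_nonneg_left h8 hg0
      unfold Ss at hn2
      linarith
    have h10 : g * L ≤ 4 * r := by
      have : g * (L / 2) ≤ g * (L - 2) := mul_le_mul_of_nonneg_left (by linarith) hg0
      linarith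
    have h11 : 2 * g ≤ ε / 2 * lm r := by
      -- 2 g L ≤ 8 r, r * log r ≤ 2 L, log r >= 12
      have a1 : 2 * g * L ≤ 8 * r := by linarith
      have a2 : (8 : ℝ) * r ≤ 2 * L := by
        rw [← hL] at hrT
        nlinarith
      have a3 : 2 * g ≤ 2 := by
        by_contra hcon
        push Not at hcon
        nlinarith
      have a4 : 2 ≤ ε / 2 * lm r := by
        rw [div_le_iff₀ hε] at h6
        linarith
      linarith
    have h12 : g * L ≤ r + (x + ε / 2) * lm r := by
      have : g * L = g * (L - 2) + 2 * g := by ring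
      rw [this]
      have e2 : (x + ε / 2) * lm r = x * lm r + ε / 2 * lm r := by ring
      linarith
    have h13 : ord (n + r) - ord n = g * (2 * Real.pi) := by rw [hg]; field_simp
    have h14 : ord (n + r) - ord n ≤ (r + (x + ε / 2) * lm r) * (2 * Real.pi / L) := by
      rw [h13, ← mul_div_assoc, le_div_iff₀ hL0]
      have := mul_le_mul_of_nonneg_right h12 (show 0 ≤ 2 * Real.pi by positivity)
      linarith
    rw [← hL]
    linarith
  exact_mod_cast Finset.card_le_card hsub

theorem uL (x ε : ℝ) (hε : 0 < ε) : ∀ᶠ r : ℕ in atTop, ∀ T : ℝ, 1 ≤ T →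
    r * Real.log r ≤ 2 * Real.log T →
    (((Finset.Ioc (NZ T) (NZ (2 * T))).filter (fun n => ¬ Ss x r n)).card : ℝ) ≤
      T * Real.log T / (2 * Real.pi) * (1 - Ph x + ε) := by
  filter_upwards [bL x ε hε] with r h1 T hT hrT
  refine le_trans ?_ (h1 T hT hrT)
  have hsub : (Finset.Ioc (NZ T) (NZ (2 * T))).filter (fun n => ¬ Ss x r n) ⊆
      (Finset.Ioc (NZ T) (NZ (2 * T))).filter (fun n => ¬ Ev x r n) := by
    intro n hn
    rw [Finset.mem_filter] at hn ⊢
    refine ⟨hn.1, fun hev => hn.2 ?_⟩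
    have hn0 : 1 ≤ n := by
      have := (Finset.mem_Ioc.1 hn.1).1
      omega
    exact (SS_le hn0).trans hev
  exact_mod_cast Finset.card_le_card hsub

lemma NZ_NN (T : ℝ) : (NZ T : ℝ) = (H370.NN riemannZeta 0 T : ℝ) := by
  congr 1
  unfold NZ H370.NN
  have e : {s : ℂ | riemannZeta s = 0 ∧ 0 < s.re ∧ s.re < 1 ∧ 0 < s.im ∧ s.im ≤ T} =
      H370.zset riemannZeta 0 T := by
    ext s
    simp only [H370.zset, Set.mem_setOf_eq]
    tauto
  rw [e]
  rfl

/-- splitting into dyadic blocks -/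
lemma split (P : ℕ → Prop) [DecidablePred P] (T : ℝ) (K : ℕ) :
    (((Finset.Icc 1 (NZ T)).filter P).card : ℝ) ≤
      (((Finset.Icc 1 (NZ (T / 2 ^ K))).filter P).card : ℝ) +
      ∑ k ∈ Finset.range K,
        (((Finset.Ioc (NZ (T / 2 ^ (k + 1))) (NZ (2 * (T / 2 ^ (k + 1))))).filter P).card : ℝ) := by
  induction K with
  | zero =>
    rw [pow_zero, div_one, Finset.sum_range_zero, add_zero]
  | succ K ih =>
    rw [Finset.sum_range_succ]
    have e : 2 * (T / 2 ^ (K + 1)) = T / 2 ^ K := by rw [pow_succ]; field_simp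
    have hsub : (Finset.Icc 1 (NZ (T / 2 ^ K))).filter P ⊆
        (Finset.Icc 1 (NZ (T / 2 ^ (K + 1)))).filter P ∪
        (Finset.Ioc (NZ (T / 2 ^ (K + 1))) (NZ (2 * (T / 2 ^ (K + 1))))).filter P := by
      intro n hn
      rw [e, Finset.mem_union, Finset.mem_filter, Finset.mem_filter, Finset.mem_Icc, Finset.mem_Ioc]
      rw [Finset.mem_filter, Finset.mem_Icc] at hn
      rcases le_or_gt n (NZ (T / 2 ^ (K + 1))) with h | h
      · exact Or.inl ⟨⟨hn.1.1, h⟩, hn.2⟩
      · exact Or.inr ⟨⟨h, hn.1.2⟩, hn.2⟩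
    have h1 := (Finset.card_le_card hsub).trans (Finset.card_union_le _ _)
    have h2 : (((Finset.Icc 1 (NZ (T / 2 ^ K))).filter P).card : ℝ) ≤
        (((Finset.Icc 1 (NZ (T / 2 ^ (K + 1)))).filter P).card : ℝ) +
        (((Finset.Ioc (NZ (T / 2 ^ (K + 1))) (NZ (2 * (T / 2 ^ (K + 1))))).filter P).card : ℝ) := by
      exact_mod_cast h1
    linarith

/-- from blocks to all zeros -/
theorem asm (ε : ℝ) (hε : 0 < ε) (hε1 : ε ≤ 1) : ∃ N₀ : ℕ, 1 ≤ N₀ ∧ ∀ N : ℕ, N₀ ≤ N →
    ∀ (P : ℕ → Prop) [DecidablePred P] (c : ℝ), 0 ≤ c → c ≤ 2 →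
    (∀ T : ℝ, 1 ≤ T → Real.log N ≤ 2 * Real.log T →
      (((Finset.Ioc (NZ T) (NZ (2 * T))).filter P).card : ℝ) ≤
        T * Real.log T / (2 * Real.pi) * c) →
    (((Finset.Icc 1 N).filter P).card : ℝ) ≤ (c + ε) * N := by
  have hpi := Real.pi_pos
  have hpi3 := Real.pi_gt_three
  obtain ⟨η, hη0, hη1, hηε⟩ : ∃ η : ℝ, 0 < η ∧ η ≤ 1 / 2 ∧ (1 + η) ^ 2 / (1 - η) ≤ 1 + ε / 8 := by
    have hc : ContinuousAt (fun η : ℝ => (1 + η) ^ 2 / (1 - η)) 0 := by
      apply ContinuousAt.div (by fun_prop) (by fun_prop)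
      norm_num
    have h1 : (fun η : ℝ => (1 + η) ^ 2 / (1 - η)) 0 < 1 + ε / 8 := by
      norm_num; linarith
    have h2 := hc.eventually (gt_mem_nhds h1)
    rw [Metric.eventually_nhds_iff] at h2
    obtain ⟨d, hd, h3⟩ := h2
    refine ⟨min (d / 2) (1 / 2), by positivity, min_le_right _ _, ?_⟩
    apply le_of_lt
    apply h3
    rw [Real.dist_eq, sub_zero, abs_of_pos (by positivity)]
    exact (min_le_left _ _).trans_lt (by linarith)
  obtain ⟨K, hK⟩ : ∃ K : ℕ, 2 * (1 / 2 : ℝ) ^ K ≤ ε / 8 := by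
    obtain ⟨K, hK⟩ := exists_pow_lt_of_lt_one (show (0 : ℝ) < ε / 16 by positivity)
      (show (1 / 2 : ℝ) < 1 by norm_num)
    exact ⟨K, by linarith⟩
  obtain ⟨T1, hT1, hup⟩ := Pool.Agent.W54.TCF.NT_asymp' 1 one_pos
  obtain ⟨T2, hT2, hlo⟩ := Pool.Agent.W54.TCF.NT_asymp' η hη0
  -- large heights
  have hlog := Real.tendsto_log_atTop
  have ev1 : ∀ᶠ T : ℝ in atTop, Real.log (Real.log T) + 2 * K * Real.log 2 ≤ Real.log T := by
    have h1 : Tendsto (fun T : ℝ => Real.log T - Real.log (Real.log T)) atTop atTop := by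
      have h2 : Tendsto (fun y : ℝ => y - Real.log y) atTop atTop := by
        have h3 : (fun y : ℝ => Real.log y) =o[atTop] fun y : ℝ => y := Real.isLittleO_log_id_atTop
        have h4 := h3.bound (c := 1 / 2) (by norm_num)
        refine tendsto_atTop_mono' _ ?_ (tendsto_id.atTop_div_const (show (0 : ℝ) < 2 by norm_num))
        filter_upwards [h4, eventually_ge_atTop 1] with y hy hy1
        rw [Real.norm_of_nonneg (Real.log_nonneg hy1), Real.norm_of_nonneg (by linarith)] at hy
        simp only [id]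
        linarith
      exact h2.comp hlog
    filter_upwards [h1.eventually_ge_atTop (2 * K * Real.log 2)] with T hT
    linarith
  have ev2 : ∀ᶠ T : ℝ in atTop, 2 ≤ Real.log T := hlog.eventually_ge_atTop 2
  have ev3 : ∀ᶠ T : ℝ in atTop, 2 ^ K * (max T1 (max T2 1)) ≤ T := eventually_ge_atTop _
  have ev4 : ∀ᶠ T : ℝ in atTop, 2 * (max T1 (max T2 1)) ≤ T := eventually_ge_atTop _
  have ev : ∀ᶠ n : ℕ in atTop, (Real.log (Real.log (ord n)) + 2 * K * Real.log 2 ≤ Real.log (ord n) ∧
      2 ≤ Real.log (ord n)) ∧ (2 ^ K * (max T1 (max T2 1)) ≤ ord n ∧ 2 * (max T1 (max T2 1)) ≤ ord n) :=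
    SG.ord_tendsto.eventually ((ev1.and ev2).and (ev3.and ev4))
  obtain ⟨N1, hN1⟩ := ev.exists_forall_of_atTop
  refine ⟨max N1 1, le_max_right _ _, fun N hN P _ c hc0 hc2 hblk => ?_⟩
  obtain ⟨⟨e1, e2⟩, e3, e4⟩ := hN1 N ((le_max_left _ _).trans hN)
  have hN0 : 1 ≤ N := (le_max_right _ _).trans hN
  obtain ⟨T, hT⟩ : ∃ T : ℝ, T = ord N := ⟨_, rfl⟩
  rw [← hT] at e1 e2 e3 e4
  have hM1 : 1 ≤ max T1 (max T2 1) := (le_max_right _ _).trans (le_max_right _ _)
  have hMT1 : T1 ≤ max T1 (max T2 1) := le_max_left _ _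
  have hMT2 : T2 ≤ max T1 (max T2 1) := (le_max_left _ _).trans (le_max_right _ _)
  have hTpos : 0 < T := by linarith
  have hL0 : 0 < Real.log T := by linarith
  obtain ⟨X, hX⟩ : ∃ X : ℝ, X = T / (2 * Real.pi) * Real.log T := ⟨_, rfl⟩
  have hX0 : 0 < X := by rw [hX]; positivity
  -- X is close to N
  have hXN : X ≤ (1 + ε / 8) * N := by
    have a0 : T / (1 + η) < ord N := by
      rw [← hT, div_lt_iff₀ (by linarith)]
      nlinarith
    have a1 : NZ (T / (1 + η)) < N := by
      by_contra hcon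
      push Not at hcon
      have := (SG.ord_le_iff hN0 _).mpr hcon
      linarith
    have a2 : T2 ≤ T / (1 + η) := by
      rw [le_div_iff₀ (by linarith)]
      nlinarith
    have a3 := (hlo _ a2).1
    rw [← NZ_NN] at a3
    have a4 : Real.log T / (1 + η) ≤ Real.log (T / (1 + η)) := by
      rw [Real.log_div hTpos.ne' (by linarith), div_le_iff₀ (by linarith)]
      have b1 : Real.log (1 + η) ≤ η := by
        have := Real.log_le_sub_one_of_pos (show 0 < 1 + η by linarith)
        linarith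
      nlinarith
    have a5 : (NZ (T / (1 + η)) : ℝ) ≤ N := by exact_mod_cast a1.le
    have a6 : (1 - η) * (T / (1 + η) / (2 * Real.pi) * (Real.log T / (1 + η))) ≤ N := by
      refine le_trans ?_ (a3.trans a5)
      apply mul_le_mul_of_nonneg_left _ (by linarith)
      apply mul_le_mul_of_nonneg_left a4
      have : 0 < 1 + η := by linarith
      positivity
    have a7 : (1 - η) * (T / (1 + η) / (2 * Real.pi) * (Real.log T / (1 + η))) =
        X / ((1 + η) ^ 2 / (1 - η)) := by
      rw [hX]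
      have h1 : (1 + η) ≠ 0 := by linarith
      have h2 : (1 - η) ≠ 0 := by linarith
      field_simp
    rw [a7, div_le_iff₀ (by
      have h2 : 0 < (1 - η) := by linarith
      positivity)] at a6
    calc X ≤ N * ((1 + η) ^ 2 / (1 - η)) := a6
      _ ≤ N * (1 + ε / 8) := mul_le_mul_of_nonneg_left hηε (Nat.cast_nonneg _)
      _ = _ := by ring
  -- log N
  have hNX : (N : ℝ) ≤ 2 * X := by
    have a1 : N ≤ NZ T := by rw [hT]; exact SG.le_NZ_ord hN0
    have a2 := (hup T (by linarith)).2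
    rw [← NZ_NN] at a2
    have a3 : (N : ℝ) ≤ NZ T := by exact_mod_cast a1
    rw [hX]
    linarith
  have hlogN : Real.log N ≤ Real.log T + Real.log (Real.log T) := by
    rw [← Real.log_mul hTpos.ne' hL0.ne']
    apply Real.log_le_log (by exact_mod_cast hN0)
    refine hNX.trans ?_
    rw [hX]
    have : 2 * (T / (2 * Real.pi) * Real.log T) = (T * Real.log T) / Real.pi := by
      field_simp
    rw [this]
    apply div_le_self (by positivity) (by linarith)
  have hTk : ∀ k : ℕ, k ≤ K → max T1 (max T2 1) ≤ T / 2 ^ k := by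
    intro k hk
    rw [le_div_iff₀ (by positivity)]
    calc max T1 (max T2 1) * 2 ^ k ≤ max T1 (max T2 1) * 2 ^ K := by
          apply mul_le_mul_of_nonneg_left _ (by linarith)
          exact pow_le_pow_right₀ (by norm_num) hk
      _ = 2 ^ K * max T1 (max T2 1) := by ring
      _ ≤ T := e3
  have hl2 : 0 < Real.log 2 := Real.log_pos (by norm_num)
  have hlogk : ∀ k : ℕ, k ≤ K → Real.log N ≤ 2 * Real.log (T / 2 ^ k) := by
    intro k hk
    rw [Real.log_div hTpos.ne' (by positivity), Real.log_pow]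
    have : (k : ℝ) * Real.log 2 ≤ K * Real.log 2 := by
      apply mul_le_mul_of_nonneg_right _ hl2.le
      exact_mod_cast hk
    linarith
  have h0 : (((Finset.Icc 1 N).filter P).card : ℝ) ≤ (((Finset.Icc 1 (NZ T)).filter P).card : ℝ) := by
    have : N ≤ NZ T := by rw [hT]; exact SG.le_NZ_ord hN0
    exact_mod_cast Finset.card_le_card (Finset.filter_subset_filter _
      (Finset.Icc_subset_Icc le_rfl this))
  have h1 := split P T K
  have h2 : (((Finset.Icc 1 (NZ (T / 2 ^ K))).filter P).card : ℝ) ≤ 2 * (1 / 2) ^ K * X := by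
    have a1 : ((Finset.Icc 1 (NZ (T / 2 ^ K))).filter P).card ≤ NZ (T / 2 ^ K) := by
      have := Finset.card_filter_le (Finset.Icc 1 (NZ (T / 2 ^ K))) P
      rwa [Nat.card_Icc, Nat.add_sub_cancel] at this
    have a2 : (((Finset.Icc 1 (NZ (T / 2 ^ K))).filter P).card : ℝ) ≤ NZ (T / 2 ^ K) := by
      exact_mod_cast a1
    have a3 := (hup (T / 2 ^ K) (hMT1.trans (hTk K le_rfl))).2
    rw [← NZ_NN] at a3
    refine a2.trans (a3.trans ?_)
    have a4 : Real.log (T / 2 ^ K) ≤ Real.log T := by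
      apply Real.log_le_log (by positivity)
      exact div_le_self hTpos.le (one_le_pow₀ (by norm_num))
    calc (1 + 1) * (T / 2 ^ K / (2 * Real.pi) * Real.log (T / 2 ^ K)) ≤
        (1 + 1) * (T / 2 ^ K / (2 * Real.pi) * Real.log T) := by gcongr
      _ = _ := by rw [hX, one_div, inv_pow]; ring
  have h3 : ∀ k ∈ Finset.range K,
      (((Finset.Ioc (NZ (T / 2 ^ (k + 1))) (NZ (2 * (T / 2 ^ (k + 1))))).filter P).card : ℝ) ≤
        (1 / 2) ^ (k + 1) * (X * c) := by
    intro k hk
    have hk' : k + 1 ≤ K := Finset.mem_range.1 hk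
    refine (hblk (T / 2 ^ (k + 1)) (hM1.trans (hTk _ hk')) (hlogk _ hk')).trans ?_
    have a4 : Real.log (T / 2 ^ (k + 1)) ≤ Real.log T := by
      apply Real.log_le_log (by positivity)
      exact div_le_self hTpos.le (one_le_pow₀ (by norm_num))
    calc T / 2 ^ (k + 1) * Real.log (T / 2 ^ (k + 1)) / (2 * Real.pi) * c ≤
        T / 2 ^ (k + 1) * Real.log T / (2 * Real.pi) * c := by gcongr
      _ = _ := by rw [hX, one_div, inv_pow]; ring
  have h4 : ∑ k ∈ Finset.range K, (1 / 2 : ℝ) ^ (k + 1) * (X * c) ≤ X * c := by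
    have h5 : ∀ n : ℕ, ∑ k ∈ Finset.range n, (1 / 2 : ℝ) ^ (k + 1) = 1 - (1 / 2) ^ n := by
      intro n
      induction n with
      | zero => simp
      | succ n ih => rw [Finset.sum_range_succ, ih, pow_succ]; ring
    rw [← Finset.sum_mul, h5]
    have h6 : 0 ≤ (1 / 2 : ℝ) ^ K := by positivity
    have h7 : 0 ≤ X * c := by positivity
    nlinarith
  have h5 := Finset.sum_le_sum h3
  have hNr : (0 : ℝ) ≤ N := Nat.cast_nonneg _
  calc (((Finset.Icc 1 N).filter P).card : ℝ) ≤ 2 * (1 / 2) ^ K * X + X * c := by linarith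
    _ = X * (2 * (1 / 2) ^ K + c) := by ring
    _ ≤ X * (ε / 8 + c) := by gcongr
    _ ≤ ((1 + ε / 8) * N) * (ε / 8 + c) := by
        apply mul_le_mul_of_nonneg_right hXN
        positivity
    _ = ((1 + ε / 8) * (ε / 8 + c)) * N := by ring
    _ ≤ (c + ε) * N := by
        apply mul_le_mul_of_nonneg_right _ hNr
        nlinarith

/-- **The normal law for sums of unfolded gaps.** -/
theorem normal_law (x ε : ℝ) (hε : 0 < ε) : ∀ᶠ r : ℕ in atTop, ∀ N : ℕ, 1 ≤ N →
    r * Real.log r ≤ Real.log N →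
    |(((Finset.Icc 1 N).filter (fun n => Ss x r n)).card : ℝ) - Ph x * N| ≤ ε * N := by
  obtain ⟨e, he⟩ : ∃ e : ℝ, e = min ε 1 := ⟨_, rfl⟩
  have he0 : 0 < e := by rw [he]; exact lt_min hε one_pos
  have he1 : e ≤ 1 := by rw [he]; exact min_le_right _ _
  have heε : e ≤ ε := by rw [he]; exact min_le_left _ _
  obtain ⟨N₀, hN₀, hasm⟩ := asm (e / 2) (by positivity) (by linarith)
  have hN₀r : (1 : ℝ) ≤ N₀ := by exact_mod_cast hN₀
  filter_upwards [uU x (e / 2) (by positivity), uL x (e / 2) (by positivity),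
    log_nat.eventually_ge_atTop 1, tendsto_natCast_atTop_atTop.eventually_ge_atTop (Real.log N₀ + 1)]
    with r h1 h2 h3 h4 N hN hrN
  have hNN : N₀ ≤ N := by
    have hlog0 : 0 ≤ Real.log N₀ := Real.log_nonneg hN₀r
    have a1 : Real.log N₀ < Real.log N := by
      have : (r : ℝ) * 1 ≤ r * Real.log r := by
        apply mul_le_mul_of_nonneg_left h3 (Nat.cast_nonneg _)
      linarith
    have a2 : (N₀ : ℝ) < N := (Real.log_lt_log_iff (by linarith) (by exact_mod_cast hN)).1 a1
    have a3 : N₀ < N := by exact_mod_cast a2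
    exact a3.le
  have hP0 := Ph_nonneg x
  have hP1 := Ph_le_one x
  have g1 := hasm N hNN (fun n => Ss x r n) (Ph x + e / 2) (by linarith) (by linarith)
    (fun T hT hlog => h1 T hT (hrN.trans hlog))
  have g2 := hasm N hNN (fun n => ¬ Ss x r n) (1 - Ph x + e / 2) (by linarith) (by linarith)
    (fun T hT hlog => h2 T hT (hrN.trans hlog))
  have g3 : (((Finset.Icc 1 N).filter (fun n => Ss x r n)).card : ℝ) +
      (((Finset.Icc 1 N).filter (fun n => ¬ Ss x r n)).card : ℝ) = N := by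
    have := Finset.card_filter_add_card_filter_not (s := Finset.Icc 1 N) (fun n => Ss x r n)
    rw [Nat.card_Icc, Nat.add_sub_cancel] at this
    exact_mod_cast this
  have hNr : (0 : ℝ) ≤ N := Nat.cast_nonneg _
  have hee : e * N ≤ ε * N := mul_le_mul_of_nonneg_right heε hNr
  have e1 : (Ph x + e / 2 + e / 2) * N = Ph x * N + e * N := by ring
  have e2 : (1 - Ph x + e / 2 + e / 2) * N = N - Ph x * N + e * N := by ring
  rw [e1] at g1
  rw [e2] at g2
  rw [abs_le]
  constructor
  · linarith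
  · linarith

lemma Ss_mono {x y : ℝ} (h : x ≤ y) {r n : ℕ} (hx : Ss x r n) : Ss y r n := by
  unfold Ss at hx ⊢
  have := mul_le_mul_of_nonneg_right h (lm_nonneg r)
  linarith

lemma card_mono {x y : ℝ} (h : x ≤ y) (r N : ℕ) :
    (((Finset.Icc 1 N).filter (fun n => Ss x r n)).card : ℝ) ≤
      (((Finset.Icc 1 N).filter (fun n => Ss y r n)).card : ℝ) := by
  have : (Finset.Icc 1 N).filter (fun n => Ss x r n) ⊆ (Finset.Icc 1 N).filter (fun n => Ss y r n) := by
    intro n hn
    rw [Finset.mem_filter] at hn ⊢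
    exact ⟨hn.1, Ss_mono h hn.2⟩
  exact_mod_cast Finset.card_le_card this

/-- **The normal law for sums of unfolded gaps, uniformly.** -/
theorem normal_unif (ε : ℝ) (hε : 0 < ε) : ∀ᶠ r : ℕ in atTop, ∀ N : ℕ, 1 ≤ N →
    r * Real.log r ≤ Real.log N → ∀ x : ℝ,
    |(((Finset.Icc 1 N).filter (fun n => Ss x r n)).card : ℝ) - Ph x * N| ≤ ε * N := by
  obtain ⟨K1, hK1⟩ := gs_bot (show 0 < ε / 4 by positivity)
  obtain ⟨K2, hK2⟩ := gs_top (show 0 < ε / 4 by positivity)
  obtain ⟨K, hK⟩ : ∃ K : ℝ, K = max 1 (max K1 K2) := ⟨_, rfl⟩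
  have hK0 : 1 ≤ K := by rw [hK]; exact le_max_left _ _
  have hKb : Ph (-K) ≤ ε / 4 := hK1 K (by rw [hK]; exact (le_max_left _ _).trans (le_max_right _ _))
  have hKt : 1 - Ph K ≤ ε / 4 := by
    rw [← gs_compl]
    refine le_trans ?_ (hK2 K (by rw [hK]; exact (le_max_right _ _).trans (le_max_right _ _)))
    exact measureReal_mono Set.Ioi_subset_Ici_self
  obtain ⟨M, hM⟩ := exists_nat_ge (8 * K / ε)
  have hMpos : (0 : ℝ) < M := lt_of_lt_of_le (by positivity) hM
  have hM0 : 0 < M := by exact_mod_cast hMpos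
  obtain ⟨h, hh⟩ : ∃ h : ℝ, h = 2 * K / M := ⟨_, rfl⟩
  have hh0 : 0 < h := by rw [hh]; positivity
  have hhM : h * M = 2 * K := by rw [hh]; field_simp
  have hhε : h ≤ ε / 4 := by
    rw [hh, div_le_iff₀ hMpos]
    rw [div_le_iff₀ hε] at hM
    linarith
  have hall : ∀ᶠ r : ℕ in atTop, ∀ i ∈ Finset.range (M + 1), ∀ N : ℕ, 1 ≤ N →
      r * Real.log r ≤ Real.log N →
      |(((Finset.Icc 1 N).filter (fun n => Ss (-K + i * h) r n)).card : ℝ) -
        Ph (-K + i * h) * N| ≤ ε / 4 * N := by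
    rw [Filter.eventually_all_finset]
    intro i _
    exact normal_law _ _ (by positivity)
  filter_upwards [hall] with r hr N hN hrN x
  have hNr : (0 : ℝ) ≤ N := Nat.cast_nonneg _
  have key : ∀ i : ℕ, i ≤ M → |(((Finset.Icc 1 N).filter (fun n => Ss (-K + i * h) r n)).card : ℝ) -
        Ph (-K + i * h) * N| ≤ ε / 4 * N := fun i hi =>
    hr i (Finset.mem_range.2 (by omega)) N hN hrN
  have hcN : ∀ y : ℝ, (((Finset.Icc 1 N).filter (fun n => Ss y r n)).card : ℝ) ≤ N := by
    intro y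
    have := Finset.card_filter_le (Finset.Icc 1 N) (fun n => Ss y r n)
    rw [Nat.card_Icc, Nat.add_sub_cancel] at this
    exact_mod_cast this
  have hεN : 0 ≤ ε * N := by positivity
  rcases le_or_gt x (-K) with h1 | h1
  · have a1 := key 0 (by omega)
    rw [Nat.cast_zero, zero_mul, add_zero] at a1
    have a2 := card_mono h1 r N
    have a3 := Ph_mono h1
    have a4 := Ph_nonneg x
    have a5 : (0 : ℝ) ≤ (((Finset.Icc 1 N).filter (fun n => Ss x r n)).card : ℝ) := Nat.cast_nonneg _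
    have a6 := (abs_le.1 a1).2
    have a7 : Ph (-K) * N ≤ ε / 4 * N := mul_le_mul_of_nonneg_right hKb hNr
    have a8 : Ph x * N ≤ ε / 4 * N := mul_le_mul_of_nonneg_right (a3.trans hKb) hNr
    have a9 : 0 ≤ Ph x * N := by positivity
    rw [abs_le]
    constructor <;> linarith
  rcases le_or_gt K x with h2 | h2
  · have a1 := key M le_rfl
    have e1 : -K + M * h = K := by rw [mul_comm, hhM]; ring
    rw [e1] at a1
    have a2 := card_mono h2 r N
    have a3 := Ph_mono h2
    have a4 := Ph_le_one x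
    have a5 := hcN x
    have a6 := (abs_le.1 a1).1
    have a7 : (1 - ε / 4) * N ≤ Ph K * N := mul_le_mul_of_nonneg_right (by linarith) hNr
    have a8 : (1 - ε / 4) * N ≤ Ph x * N := mul_le_mul_of_nonneg_right (by linarith) hNr
    have a9 : Ph x * N ≤ 1 * N := mul_le_mul_of_nonneg_right a4 hNr
    rw [abs_le]
    constructor <;> nlinarith
  · obtain ⟨i, hi⟩ : ∃ i : ℕ, i = ⌊(x + K) / h⌋₊ := ⟨_, rfl⟩
    have hxK : 0 ≤ (x + K) / h := div_nonneg (by linarith) hh0.le
    have b1 : (i : ℝ) * h ≤ x + K := by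
      have := Nat.floor_le hxK
      rw [← hi, le_div_iff₀ hh0] at this
      exact this
    have b2 : x + K < (i + 1) * h := by
      have := Nat.lt_floor_add_one ((x + K) / h)
      rw [← hi, div_lt_iff₀ hh0] at this
      exact this
    have b3 : i + 1 ≤ M := by
      have : (i : ℝ) * h < M * h := by
        rw [mul_comm (M : ℝ) h, hhM]; linarith
      have := lt_of_mul_lt_mul_right this hh0.le
      exact_mod_cast this
    have a1 := key i (by omega)
    have a2 := key (i + 1) b3
    push_cast at a2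
    have c1 : -K + i * h ≤ x := by linarith
    have c2 : x ≤ -K + (i + 1) * h := by linarith
    have d1 := card_mono c1 r N
    have d2 := card_mono c2 r N
    have f1 := Ph_lip c1
    have f2 := Ph_lip c2
    have f3 : x - (-K + i * h) ≤ h := by linarith
    have f4 : -K + (i + 1) * h - x ≤ h := by linarith
    have g1 : Ph x * N ≤ Ph (-K + i * h) * N + ε / 4 * N := by
      rw [← add_mul]
      exact mul_le_mul_of_nonneg_right (by linarith) hNr
    have g2 : Ph (-K + (i + 1) * h) * N ≤ Ph x * N + ε / 4 * N := by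
      rw [← add_mul]
      exact mul_le_mul_of_nonneg_right (by linarith) hNr
    obtain ⟨x1, x2⟩ := abs_le.1 a1
    obtain ⟨x3, x4⟩ := abs_le.1 a2
    rw [abs_le]
    constructor <;> linarith

end Pool.Agent.R320.CL
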